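import Mathlib

set_option autoImplicit false

/-!
# The group generated by the horizontal class transpositions has infinite width

If `σ = τ₁ ⋯ τₙ` is a product of `n` horizontal class transpositions, then some integer `x` is moved
by `σ` by at most `n (2 n + 1)`: factors with modulus `≤ 2 n + 1` move points by at most `2 n`, and
the factors with larger modulus `k` move only a proportion `2 / k` of the integers.  But the group
contains elements moving every integer by a given distance `M`.
-/

namespace Pool.Agent.Results.MP_9704e3_al.InfiniteWidth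

/-- The map interchanging the residue classes `i (mod k)` and `j (mod k)` by translation and fixing
all other integers. -/
def ctFun (k i j : ℤ) (n : ℤ) : ℤ :=
  if n % k = i then n + (j - i) else if n % k = j then n - (j - i) else n

/-- `σ` is the horizontal class transposition `τ_{i(k),j(k)}` for some `0 ≤ i < j ≤ k - 1`. -/
def IsHCT (k : ℤ) (σ : Equiv.Perm ℤ) : Prop :=
  ∃ i j : ℤ, 0 ≤ i ∧ i < j ∧ j ≤ k - 1 ∧ ∀ n, σ n = ctFun k i j n

/-- The set `H` of all horizontal class transpositions (over all moduli `k ≥ 2`). -/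
def H : Set (Equiv.Perm ℤ) := {σ | ∃ k : ℤ, 2 ≤ k ∧ IsHCT k σ}

/-- The group `CT_∞ = ⟨H⟩`. -/
def CTinf : Subgroup (Equiv.Perm ℤ) := Subgroup.closure H

lemma ct_mod {k i j : ℤ} (hi : 0 ≤ i) (hij : i < j) (hj : j ≤ k - 1) (n : ℤ) :
    (ctFun k i j n) % k = if n % k = i then j else if n % k = j then i else n % k := by
  have hk : 0 < k := by omega
  have h0 := Int.emod_add_mul_ediv n k
  unfold ctFun
  split_ifs with h1 h2
  · have : n + (j - i) = j + k * (n / k) := by rw [← h1]; linarith
    rw [this, Int.add_mul_emod_self_left, Int.emod_eq_of_lt (by omega) (by omega)]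
  · have : n - (j - i) = i + k * (n / k) := by rw [← h2]; linarith
    rw [this, Int.add_mul_emod_self_left, Int.emod_eq_of_lt (by omega) (by omega)]
  · rfl

lemma ct_invol {k i j : ℤ} (hi : 0 ≤ i) (hij : i < j) (hj : j ≤ k - 1) (n : ℤ) :
    ctFun k i j (ctFun k i j n) = n := by
  have h := ct_mod hi hij hj n
  by_cases h1 : n % k = i
  · rw [if_pos h1] at h
    have h2 : ctFun k i j n = n + (j - i) := by unfold ctFun; rw [if_pos h1]
    rw [h2] at h ⊢
    unfold ctFun
    rw [if_neg (by omega), if_pos h]; ring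
  · rw [if_neg h1] at h
    by_cases h2 : n % k = j
    · rw [if_pos h2] at h
      have h3 : ctFun k i j n = n - (j - i) := by unfold ctFun; rw [if_neg h1, if_pos h2]
      rw [h3] at h ⊢
      unfold ctFun
      rw [if_pos h]; ring
    · have h3 : ctFun k i j n = n := by unfold ctFun; rw [if_neg h1, if_neg h2]
      rw [h3, h3]

/-- the permutation `τ_{i(k),j(k)}` -/
def ct {k i j : ℤ} (hi : 0 ≤ i) (hij : i < j) (hj : j ≤ k - 1) : Equiv.Perm ℤ where
  toFun := ctFun k i j
  invFun := ctFun k i j
  left_inv := ct_invol hi hij hj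
  right_inv := ct_invol hi hij hj

/-- partial products of `∏_{s < M} τ_{s(2M), (s+M)(2M)}` -/
def big (M s x : ℤ) : ℤ :=
  if x % (2 * M) < s then x + M
  else if M ≤ x % (2 * M) ∧ x % (2 * M) < M + s then x - M else x

lemma exists_big (M : ℤ) (hM : 1 ≤ M) : ∀ s : ℕ, (s : ℤ) ≤ M →
    ∃ σ ∈ CTinf, ∀ x, σ x = big M s x := by
  intro s
  induction s with
  | zero =>
    intro _
    refine ⟨1, one_mem _, fun x => ?_⟩
    have h0 : 0 ≤ x % (2 * M) := Int.emod_nonneg _ (by omega)
    simp only [big, Nat.cast_zero, Equiv.Perm.coe_one, id]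
    rw [if_neg (by omega), if_neg (by omega)]
  | succ s ih =>
    intro hs
    push_cast at hs
    obtain ⟨σ, hσ, hσ'⟩ := ih (by omega)
    have hi : (0 : ℤ) ≤ s := by positivity
    have hij : (s : ℤ) < s + M := by omega
    have hj : (s : ℤ) + M ≤ 2 * M - 1 := by omega
    refine ⟨σ * ct hi hij hj, mul_mem hσ (Subgroup.subset_closure
      ⟨2 * M, by omega, s, s + M, hi, hij, hj, fun _ => rfl⟩), fun x => ?_⟩
    rw [Equiv.Perm.mul_apply, hσ']
    have h0 : 0 ≤ x % (2 * M) := Int.emod_nonneg _ (by omega)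
    have h0' : x % (2 * M) < 2 * M := Int.emod_lt_of_pos _ (by omega)
    have hm := ct_mod hi hij hj x
    change big M s (ctFun (2 * M) s (s + M) x) = big M (s + 1 : ℕ) x
    push_cast
    by_cases h1 : x % (2 * M) = s
    · rw [if_pos h1] at hm
      have h2 : ctFun (2 * M) s (s + M) x = x + M := by
        unfold ctFun; rw [if_pos h1]; ring
      rw [h2] at hm ⊢
      unfold big
      rw [hm, h1, if_neg (by omega), if_neg (by omega), if_pos (by omega)]
    · rw [if_neg h1] at hm
      by_cases h2 : x % (2 * M) = s + M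
      · rw [if_pos h2] at hm
        have h3 : ctFun (2 * M) s (s + M) x = x - M := by
          unfold ctFun; rw [if_neg h1, if_pos h2]; ring
        rw [h3] at hm ⊢
        unfold big
        rw [hm, h2, if_neg (by omega), if_neg (by omega), if_neg (by omega), if_pos (by omega)]
      · have h3 : ctFun (2 * M) s (s + M) x = x := by unfold ctFun; rw [if_neg h1, if_neg h2]
        rw [h3]
        unfold big
        by_cases h4 : x % (2 * M) < s
        · rw [if_pos h4, if_pos (by omega)]
        · rw [if_neg h4, if_neg (by omega : ¬ x % (2 * M) < (s : ℤ) + 1)]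
          by_cases h5 : M ≤ x % (2 * M) ∧ x % (2 * M) < M + s
          · rw [if_pos h5, if_pos (by omega)]
          · rw [if_neg h5, if_neg (by omega)]

/-- `CT_∞` contains an element moving every integer by exactly `M`. -/
lemma exists_shift (M : ℤ) (hM : 1 ≤ M) : ∃ σ ∈ CTinf, ∀ x, |σ x - x| = M := by
  obtain ⟨σ, hσ, h⟩ := exists_big M hM M.toNat (by omega)
  refine ⟨σ, hσ, fun x => ?_⟩
  have h0 : 0 ≤ x % (2 * M) := Int.emod_nonneg _ (by omega)
  have h0' : x % (2 * M) < 2 * M := Int.emod_lt_of_pos _ (by omega)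
  rw [h, big]
  have hM' : ((M.toNat : ℕ) : ℤ) = M := by omega
  rw [hM']
  split_ifs with h1 h2
  · rw [show x + M - x = M by ring]; exact abs_of_pos (by omega)
  · rw [show x - M - x = -M by ring, abs_neg]; exact abs_of_pos (by omega)
  · omega

/-- `ρ` commutes with the translation by `P`. -/
def Per (P : ℤ) (ρ : Equiv.Perm ℤ) : Prop := ∀ x c : ℤ, ρ (x + P * c) = ρ x + P * c

lemma per_hct {P k : ℤ} (hk : k ∣ P) {τ : Equiv.Perm ℤ} (h : IsHCT k τ) : Per P τ := by
  obtain ⟨i, j, -, -, -, hf⟩ := h
  intro x c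
  obtain ⟨q, rfl⟩ := hk
  have h1 : (x + k * q * c) % k = x % k := by
    rw [mul_assoc, Int.add_mul_emod_self_left]
  rw [hf, hf, ctFun, ctFun, h1]
  split_ifs <;> ring

open Finset in
lemma card_le {P : ℤ} (hP : 0 < P) {ρ : Equiv.Perm ℤ} (hρ : Per P ρ) (p : ℤ → Prop)
    [DecidablePred p] (hp : ∀ x c : ℤ, p (x + P * c) ↔ p x) :
    ((Ico 0 P).filter fun x => p (ρ x)).card ≤ ((Ico 0 P).filter fun x => p x).card := by
  apply Finset.card_le_card_of_injOn (fun x => ρ x % P)
  · intro x hx
    rw [Finset.mem_coe, mem_filter, mem_Ico] at hx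
    rw [Finset.mem_coe, mem_filter, mem_Ico]
    refine ⟨⟨Int.emod_nonneg _ (by omega), Int.emod_lt_of_pos _ hP⟩, ?_⟩
    have h1 : ρ x = ρ x % P + P * (ρ x / P) := (Int.emod_add_mul_ediv _ _).symm
    rw [← hp _ (ρ x / P), ← h1]
    exact hx.2
  · intro x hx y hy hxy
    rw [Finset.mem_coe, mem_filter, mem_Ico] at hx hy
    simp only at hxy
    have h1 : ρ x = ρ y + P * (ρ x / P - ρ y / P) := by
      have e1 := Int.emod_add_mul_ediv (ρ x) P
      have e2 := Int.emod_add_mul_ediv (ρ y) P
      rw [mul_sub]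
      omega
    rw [← hρ] at h1
    have h2 := ρ.injective h1
    have h3 : ρ x / P - ρ y / P = 0 := by
      by_contra hne
      rcases lt_or_gt_of_ne hne with h | h
      · have : P * (ρ x / P - ρ y / P) ≤ P * (-1) := by
          apply mul_le_mul_of_nonneg_left _ hP.le; omega
        omega
      · have : P * 1 ≤ P * (ρ x / P - ρ y / P) := by
          apply mul_le_mul_of_nonneg_left _ hP.le; omega
        omega
    rw [h3] at h2
    simpa using h2

open Finset in
lemma card_class {k q i : ℤ} (hk : 0 < k) (hq : 0 ≤ q) :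
    (((Ico 0 (k * q)).filter fun x => x % k = i).card : ℤ) ≤ q := by
  have h1 : ((Ico 0 (k * q)).filter fun x => x % k = i).card ≤ (Ico 0 q).card := by
    apply Finset.card_le_card_of_injOn (fun x => x / k)
    · intro x hx
      rw [Finset.mem_coe, mem_filter, mem_Ico] at hx
      rw [Finset.mem_coe, mem_Ico]
      exact ⟨Int.ediv_nonneg hx.1.1 hk.le, Int.ediv_lt_of_lt_mul hk (by rw [mul_comm]; exact hx.1.2)⟩
    · intro x hx y hy hxy
      rw [Finset.mem_coe, mem_filter, mem_Ico] at hx hy
      simp only at hxy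
      have e1 := Int.emod_add_mul_ediv x k
      have e2 := Int.emod_add_mul_ediv y k
      rw [← e1, ← e2, hx.2, hy.2, hxy]
  calc (((Ico 0 (k * q)).filter fun x => x % k = i).card : ℤ) ≤ ((Ico 0 q).card : ℤ) := by
        exact_mod_cast h1
    _ = q := by rw [Int.card_Ico]; omega

open Finset in
lemma card_move {P K : ℤ} (hP : 0 < P) (hK : 0 < K) {k : ℤ} (hk2 : 2 ≤ k) (hk : k ∣ P)
    {τ : Equiv.Perm ℤ} (h : IsHCT k τ) :
    K * (((Ico 0 P).filter fun y => K < |τ y - y|).card : ℤ) ≤ 2 * P := by
  obtain ⟨i, j, hi, hij, hj, hf⟩ := h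
  have hd : ∀ y, |τ y - y| ≤ k - 1 := by
    intro y
    rw [hf, ctFun]
    split_ifs
    · rw [show y + (j - i) - y = j - i by ring, abs_of_pos (by omega)]; omega
    · rw [show y - (j - i) - y = -(j - i) by ring, abs_neg, abs_of_pos (by omega)]; omega
    · simp; omega
  rcases le_or_gt k K with hkK | hkK
  · have : ((Ico 0 P).filter fun y => K < |τ y - y|) = ∅ := by
      apply Finset.filter_eq_empty_iff.2
      intro y _
      have := hd y
      omega
    rw [this]; simp; omega
  · obtain ⟨q, rfl⟩ := hk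
    have hk0 : 0 < k := by omega
    have hq : 0 < q := by
      by_contra hq
      have : k * q ≤ 0 := mul_nonpos_of_nonneg_of_nonpos hk0.le (by omega)
      omega
    have hsub : ((Ico 0 (k * q)).filter fun y => K < |τ y - y|) ⊆
        ((Ico 0 (k * q)).filter fun y => y % k = i) ∪ ((Ico 0 (k * q)).filter fun y => y % k = j) := by
      intro y hy
      rw [mem_filter] at hy
      rw [mem_union, mem_filter, mem_filter]
      by_contra hne
      have h1 : y % k ≠ i := fun h => hne (Or.inl ⟨hy.1, h⟩)
      have h2 : y % k ≠ j := fun h => hne (Or.inr ⟨hy.1, h⟩)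
      have h3 := hy.2
      rw [hf, ctFun, if_neg h1, if_neg h2] at h3
      simp at h3
      omega
    have hc : (((Ico 0 (k * q)).filter fun y => K < |τ y - y|).card : ℤ) ≤ 2 * q := by
      calc (((Ico 0 (k * q)).filter fun y => K < |τ y - y|).card : ℤ)
          ≤ ((((Ico 0 (k * q)).filter fun y => y % k = i) ∪
              ((Ico 0 (k * q)).filter fun y => y % k = j)).card : ℤ) := by
            exact_mod_cast Finset.card_le_card hsub
        _ ≤ (((Ico 0 (k * q)).filter fun y => y % k = i).card : ℤ) +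
              (((Ico 0 (k * q)).filter fun y => y % k = j).card : ℤ) := by
            exact_mod_cast Finset.card_union_le _ _
        _ ≤ 2 * q := by
            have := card_class (i := i) hk0 hq.le
            have := card_class (i := j) hk0 hq.le
            omega
    calc K * (((Ico 0 (k * q)).filter fun y => K < |τ y - y|).card : ℤ) ≤ K * (2 * q) :=
          mul_le_mul_of_nonneg_left hc hK.le
      _ ≤ k * (2 * q) := mul_le_mul_of_nonneg_right hkK.le (by omega)
      _ = 2 * (k * q) := by ring

open Finset in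
lemma key {P K : ℤ} (hP : 0 < P) (hK : 0 < K) : ∀ l : List (Equiv.Perm ℤ),
    (∀ τ ∈ l, ∃ k : ℤ, k ∣ P ∧ 2 ≤ k ∧ IsHCT k τ) →
    Per P l.prod ∧
      K * (((Ico 0 P).filter fun x => l.length * K < |l.prod x - x|).card : ℤ) ≤ 2 * l.length * P := by
  intro l
  induction l with
  | nil =>
    intro _
    refine ⟨fun x c => rfl, ?_⟩
    simp
  | cons τ l ih =>
    intro h
    obtain ⟨h1, h2⟩ := ih fun σ hσ => h σ (List.mem_cons_of_mem _ hσ)
    obtain ⟨k, hkP, hk2, hτ⟩ := h τ List.mem_cons_self
    have h3 := per_hct hkP hτ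
    refine ⟨fun x c => ?_, ?_⟩
    · rw [List.prod_cons, Equiv.Perm.mul_apply, Equiv.Perm.mul_apply, h1, h3]
    · have hsub : ((Ico 0 P).filter fun x =>
          ((τ :: l).length : ℤ) * K < |(τ :: l).prod x - x|) ⊆
          ((Ico 0 P).filter fun x => l.length * K < |l.prod x - x|) ∪
          ((Ico 0 P).filter fun x => K < |τ (l.prod x) - l.prod x|) := by
        intro x hx
        rw [mem_filter] at hx
        rw [mem_union, mem_filter, mem_filter]
        by_contra hne
        have e1 : |l.prod x - x| ≤ l.length * K := by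
          by_contra hh; exact hne (Or.inl ⟨hx.1, by omega⟩)
        have e2 : |τ (l.prod x) - l.prod x| ≤ K := by
          by_contra hh; exact hne (Or.inr ⟨hx.1, by omega⟩)
        have e3 := hx.2
        rw [List.prod_cons, Equiv.Perm.mul_apply, List.length_cons] at e3
        have e4 : |τ (l.prod x) - x| ≤ |τ (l.prod x) - l.prod x| + |l.prod x - x| := abs_sub_le _ _ _
        push_cast at e3
        have e5 : ((l.length : ℤ) + 1) * K = l.length * K + K := by ring
        rw [e5] at e3
        omega
      have hc1 := card_le hP h1 (fun y => K < |τ y - y|) (by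
        intro x c
        rw [h3, show τ x + P * c - (x + P * c) = τ x - x by ring])
      have hc2 := card_move hP hK hk2 hkP hτ
      have hc3 : (((Ico 0 P).filter fun x =>
          ((τ :: l).length : ℤ) * K < |(τ :: l).prod x - x|).card : ℤ) ≤
          (((Ico 0 P).filter fun x => l.length * K < |l.prod x - x|).card : ℤ) +
          (((Ico 0 P).filter fun y => K < |τ y - y|).card : ℤ) := by
        calc _ ≤ ((((Ico 0 P).filter fun x => l.length * K < |l.prod x - x|) ∪
          ((Ico 0 P).filter fun x => K < |τ (l.prod x) - l.prod x|)).card : ℤ) := by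
              exact_mod_cast Finset.card_le_card hsub
          _ ≤ (((Ico 0 P).filter fun x => l.length * K < |l.prod x - x|).card : ℤ) +
          (((Ico 0 P).filter fun x => K < |τ (l.prod x) - l.prod x|).card : ℤ) := by
              exact_mod_cast Finset.card_union_le _ _
          _ ≤ _ := by
              have : (((Ico 0 P).filter fun x => K < |τ (l.prod x) - l.prod x|).card : ℤ) ≤
                (((Ico 0 P).filter fun y => K < |τ y - y|).card : ℤ) := by exact_mod_cast hc1
              omega
      have hc4 := mul_le_mul_of_nonneg_left hc3 hK.le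
      rw [mul_add] at hc4
      have e6 : 2 * (((τ :: l).length : ℕ) : ℤ) * P = 2 * l.length * P + 2 * P := by
        rw [List.length_cons]; push_cast; ring
      rw [e6]
      omega

lemma exists_period : ∀ l : List (Equiv.Perm ℤ), (∀ τ ∈ l, τ ∈ H) →
    ∃ P : ℤ, 0 < P ∧ ∀ τ ∈ l, ∃ k : ℤ, k ∣ P ∧ 2 ≤ k ∧ IsHCT k τ := by
  intro l
  induction l with
  | nil => intro _; exact ⟨1, one_pos, by simp⟩
  | cons τ l ih =>
    intro h
    obtain ⟨P, hP, h1⟩ := ih fun σ hσ => h σ (List.mem_cons_of_mem _ hσ)
    obtain ⟨k, hk, hτ⟩ := h τ List.mem_cons_self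
    refine ⟨k * P, by positivity, fun σ hσ => ?_⟩
    rcases List.mem_cons.1 hσ with rfl | hσ
    · exact ⟨k, dvd_mul_right _ _, hk, hτ⟩
    · obtain ⟨k', h2, h3, h4⟩ := h1 σ hσ
      exact ⟨k', h2.mul_left _, h3, h4⟩

/-- For every `n` there is an element of `CT_∞` that is not a product of `n` or fewer horizontal
class transpositions: `CT_∞` does not have finite width with respect to `H`. -/
theorem result : ∀ n : ℕ, ∃ σ ∈ CTinf,
    ¬ ∃ l : List (Equiv.Perm ℤ), l.length ≤ n ∧ (∀ τ ∈ l, τ ∈ H) ∧ l.prod = σ := by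
  intro n
  obtain ⟨σ, hσ, hmove⟩ := exists_shift (n * (2 * n + 1) + 1) (by
    have : (0 : ℤ) ≤ n * (2 * n + 1) := by positivity
    omega)
  refine ⟨σ, hσ, ?_⟩
  rintro ⟨l, hl, hH, rfl⟩
  obtain ⟨P, hP, hl'⟩ := exists_period l hH
  have hK : (0 : ℤ) < 2 * n + 1 := by positivity
  obtain ⟨-, hkey⟩ := key hP hK l hl'
  have hall : ((Finset.Ico 0 P).filter fun x =>
      (l.length : ℤ) * (2 * n + 1) < |l.prod x - x|) = Finset.Ico 0 P := by
    apply Finset.filter_true_of_mem
    intro x _
    rw [hmove]
    have : (l.length : ℤ) * (2 * n + 1) ≤ n * (2 * n + 1) :=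
      mul_le_mul_of_nonneg_right (by exact_mod_cast hl) hK.le
    omega
  rw [hall, Int.card_Ico] at hkey
  have e1 : ((P - 0).toNat : ℤ) = P := by omega
  rw [e1] at hkey
  have e2 : 2 * (l.length : ℤ) * P ≤ 2 * n * P := by
    apply mul_le_mul_of_nonneg_right _ hP.le
    have : (l.length : ℤ) ≤ n := by exact_mod_cast hl
    omega
  have e3 : (2 * (n : ℤ) + 1) * P = 2 * n * P + P := by ring
  rw [e3] at hkey
  omega

end Pool.Agent.Results.MP_9704e3_al.InfiniteWidth
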